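import Mathlib
import Pool.Agent.Helper28.HN.Defs

/-!
# Complete intersections of `m - 1` forms of bidegree `(1,1)`, one of bidegree `(2,1)` and one of
bidegree `(1,2)` in `P^(m+1) × P^(m+1)`: definitions for all `m`

Everything is parallel to `Helper28.HN.Defs` (type 1); `I m`, `Un m`, `En m`, `cr`, `aff` are the same.
The line over `x` is given by the `m` linear forms `lx c r x _` (the last one is the form of bidegree
`(2,1)`), the quadratic form on it is the form of bidegree `(1,2)`; the line over `y` is given by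
`ly c r _ y` (the last one is the form of bidegree `(1,2)`), with the form of bidegree `(2,1)`.

* `bf c r x y`: the bilinear forms; `sf c x x' y`, `tf c x y y'`: the polarisations of the forms of
  bidegree `(2,1)` and `(1,2)`.
* `yh`, `xh`, `nx`, `ny`, `ch`, `Rz`, `Fh`, `Ah`, `Bh`, `Ch`, `psh`, `kah`, `qh`, `Eqn` as for type 1.
* `th c x z`: the factor with `qh c x (xh c (yh c x z)) z = 2 * th c x z * psh c x z` (type 1: `det Mx`).
-/

namespace Pool.Agent.Helper24.H2

open MvPolynomial
open Pool.Agent.Helper28.HN (I Un En cr aff)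

/-- The indices of the bilinear forms. -/
abbrev Bi (m : ℕ) := {r : Fin m // r.val + 1 < m}

/-- Coefficients of the bilinear forms, of the form of bidegree `(2,1)` and of the form of bidegree
`(1,2)`. -/
abbrev Ix (m : ℕ) := (Bi m × I m × I m) ⊕ (I m × I m × I m) ⊕ (I m × I m × I m)

section defs

variable {m : ℕ} {S : Type*} [CommRing S]

/-- The bilinear forms. -/
def bf (c : Ix m → S) (r : Bi m) (x y : I m → S) : S :=
  ∑ i, ∑ j, c (.inl (r, i, j)) * x i * y j

/-- The polarisation of the form of bidegree `(2,1)`. -/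
def sf (c : Ix m → S) (x x' y : I m → S) : S :=
  ∑ i, ∑ j, ∑ k, (c (.inr (.inl (i, j, k))) + c (.inr (.inl (j, i, k)))) * x i * x' j * y k

/-- The polarisation of the form of bidegree `(1,2)`. -/
def tf (c : Ix m → S) (x y y' : I m → S) : S :=
  ∑ i, ∑ j, ∑ k, (c (.inr (.inr (i, j, k))) + c (.inr (.inr (i, k, j)))) * x i * y j * y' k

/-- The linear forms in `y` over `x`. -/
def lx (c : Ix m → S) (r : Fin m) (x y : I m → S) : S :=
  if h : r.val + 1 < m then bf c ⟨r, h⟩ x y else sf c x x y

/-- The linear forms in `x` over `y`. -/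
def ly (c : Ix m → S) (r : Fin m) (x y : I m → S) : S :=
  if h : r.val + 1 < m then bf c ⟨r, h⟩ x y else tf c x y y

/-- The derivative of `lx` in the direction `ξ`. -/
def dl (c : Ix m → S) (r : Fin m) (x ξ y : I m → S) : S :=
  if h : r.val + 1 < m then bf c ⟨r, h⟩ ξ y else 2 * sf c x ξ y

/-- The point `(x, y)` lies on the complete intersection. -/
def OnX (c : Ix m → S) (x y : I m → S) : Prop :=
  (∀ r, bf c r x y = 0) ∧ sf c x x y = 0 ∧ tf c x y y = 0

/-- Exchange of the two factors: `sf (c ∘ sw) x x' y = tf c y x x'`,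
`tf (c ∘ sw) x y y' = sf c y y' x`. -/
def sw : Ix m → Ix m
  | .inl (r, i, j) => .inl (r, j, i)
  | .inr (.inl (i, j, k)) => .inr (.inr (k, i, j))
  | .inr (.inr (i, j, k)) => .inr (.inl (j, k, i))

/-- The linear forms over `y`. -/
def rw' (c : Ix m → S) (y : I m → S) : Fin m → I m → S :=
  fun r i => ly c r (Pi.single i 1) y

/-- The symmetric product of the two points over `y`. -/
noncomputable def gG (c : Ix m → S) (y : I m → S) (p : I m × I m) : S :=
  2 * sf c (cr (rw' c y) (Pi.single p.1 1)) (cr (rw' c y) (Pi.single p.2 1)) y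

/-- The forms `gG`, of degree `2 * m + 3`. -/
noncomputable def cG (c : Ix m → S) (p : I m × I m) : MvPolynomial (I m) S :=
  gG (fun e => C (c e)) X p

/-- The matrix of the equations of the line over `x`, without the first two columns. -/
def Mx (c : Ix m → S) (x : I m → S) : Matrix (Fin m) (Fin m) S :=
  fun r b => lx c r x (Pi.single b.succ.succ 1)

/-- The point with `y 1 = 0` of the line over `x`. -/
noncomputable def Y0 (c : Ix m → S) (x : I m → S) : I m → S :=
  Fin.cons (Mx c x).det (Fin.cons 0
    (- ((Mx c x).adjugate.mulVec fun r => lx c r x (Pi.single 0 1))))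

/-- The point with `y 0 = 0` of the line over `x`. -/
noncomputable def Y1 (c : Ix m → S) (x : I m → S) : I m → S :=
  Fin.cons 0 (Fin.cons (Mx c x).det
    (- ((Mx c x).adjugate.mulVec fun r => lx c r x (Pi.single 1 1))))

/-- The point with `y 1 = z * y 0` of the line over `x`. -/
noncomputable def yh (c : Ix m → S) (x : I m → S) (z : S) : I m → S :=
  fun i => Y0 c x i + z * Y1 c x i

/-- The matrix of the equations of the line over `y`, without the first and the last column. -/
def Nx (c : Ix m → S) (y : I m → S) : Matrix (Fin m) (Fin m) S :=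
  fun r i => ly c r (Pi.single i.castSucc.succ 1) y

/-- The affine part of the point with `x 0 = 0` of the line over `y`. -/
noncomputable def vh (c : Ix m → S) (y : I m → S) : Fin (m + 1) → S :=
  Fin.snoc (- ((Nx c y).adjugate.mulVec fun r => ly c r (Pi.single (Fin.last (m + 1)) 1) y))
    (Nx c y).det

/-- The point with `x 0 = 0` of the line over `y`. -/
noncomputable def xh (c : Ix m → S) (y : I m → S) : I m → S := Fin.cons 0 (vh c y)

/-- The second point over `y`. -/
noncomputable def nx (c : Ix m → S) (x y : I m → S) : I m → S :=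
  fun i => sf c (xh c y) (xh c y) y * x i - 2 * sf c x (xh c y) y * xh c y i

/-- The form on the line over `x`. -/
noncomputable def Fh (c : Ix m → S) (x : I m → S) (z : S) : S := tf c x (yh c x z) (yh c x z)

/-- Its coefficients. -/
noncomputable def Ah (c : Ix m → S) (x : I m → S) : S := tf c x (Y1 c x) (Y1 c x)

/-- Its coefficients. -/
noncomputable def Bh (c : Ix m → S) (x : I m → S) : S := tf c x (Y0 c x) (Y1 c x)

/-- Its coefficients. -/
noncomputable def Ch (c : Ix m → S) (x : I m → S) : S := tf c x (Y0 c x) (Y0 c x)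

/-- The second point over `x`; `ny c x (yh c x z) = Ah c x * yh c x w`, `Ah w = -2 Bh - Ah z`. -/
noncomputable def ny (c : Ix m → S) (x y : I m → S) : I m → S :=
  fun i => Ah c x * y i - 2 * tf c x y (Y1 c x) * Y1 c x i

/-- The linear coefficient on the line over `y`. -/
noncomputable def psh (c : Ix m → S) (x : I m → S) (z : S) : S :=
  sf c x (xh c (yh c x z)) (yh c x z)

/-- The quadratic coefficient on the line over `y`. -/
noncomputable def kah (c : Ix m → S) (x : I m → S) (z : S) : S :=
  sf c (xh c (yh c x z)) (xh c (yh c x z)) (yh c x z)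

/-- The derivative of the form on the line over `x` in the direction `ξ` (times a power of
`det (Mx c x)`). -/
noncomputable def qh (c : Ix m → S) (x ξ : I m → S) (z : S) : S :=
  (Mx c x).det * tf c ξ (yh c x z) (yh c x z) +
    2 * tf c x (yh c x z) (Fin.cons 0 (Fin.cons 0
      (- ((Mx c x).adjugate.mulVec fun r => dl c r x ξ (yh c x z)))))

/-- The leading coefficient (in `z`) of `qh c x ξ z`. -/
noncomputable def qa (c : Ix m → S) (x ξ : I m → S) : S :=
  (Mx c x).det * tf c ξ (Y1 c x) (Y1 c x) +
    2 * tf c x (Y1 c x) (Fin.cons 0 (Fin.cons 0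
      (- ((Mx c x).adjugate.mulVec fun r => dl c r x ξ (Y1 c x)))))

/-- The response of the form on the line over `x` to the last linear form:
`qh c x (xh c (yh c x z)) z = 2 * th c x z * psh c x z`. -/
noncomputable def th (c : Ix m → S) (x : I m → S) (z : S) : S :=
  - 2 * tf c x (yh c x z) (Fin.cons 0 (Fin.cons 0
      ((Mx c x).adjugate.mulVec fun r => if r.val + 1 < m then 0 else 1)))

/-- `psh` as a polynomial in `z`. -/
noncomputable def psP (c : Ix m → S) (x : I m → S) : Polynomial S :=
  psh (fun e => Polynomial.C (c e)) (fun i => Polynomial.C (x i)) Polynomial.X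

/-- The direction at the root `z`. -/
noncomputable def xz (c : Ix m → S) (u : Fin (m + 1) → S) (z : S) : I m → S :=
  xh c (yh c (aff u) z)

end defs

section chain

variable {m : ℕ}

/-- The chain of curves, as for type 1. -/
noncomputable def ch {S : Type*} [CommRing S] (c : Ix m → S) (x0 ξ0 y1 : I m → S) :
    ℕ → (I m → Polynomial S) × (I m → Polynomial S)
  | 0 => (fun i => Polynomial.C (x0 i) + Polynomial.X * Polynomial.C (ξ0 i),
      fun i => Polynomial.C (y1 i))
  | N + 1 =>
    if N % 2 = 0 then
      ((ch c x0 ξ0 y1 N).1, ny (fun e => Polynomial.C (c e)) (ch c x0 ξ0 y1 N).1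
        (ch c x0 ξ0 y1 N).2)
    else
      (nx (fun e => Polynomial.C (c e)) (ch c x0 ξ0 y1 N).1 (ch c x0 ξ0 y1 N).2,
        (ch c x0 ξ0 y1 N).2)

/-- `(x, y)` is (up to factors) the value of the curve `N` at some parameter. -/
def Rz {k : Type*} [Field k] (c : Ix m → k) (x0 ξ0 y1 : I m → k) (N : ℕ) (x y : I m → k) : Prop :=
  ∃ τ α β : k, α ≠ 0 ∧ β ≠ 0 ∧ (∀ i, x i = α * ((ch c x0 ξ0 y1 N).1 i).eval τ) ∧
    ∀ i, y i = β * ((ch c x0 ξ0 y1 N).2 i).eval τ

end chain

section config

variable {m : ℕ} {S : Type*} [CommRing S]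

/-- The square system, as for type 1. -/
noncomputable def Eqn (c : Ix m → S) (k : Un m → S) : En m → S
  | .inl a => psh c (aff fun i => k (.inl i)) (k (.inr a))
  | .inr (.inl 0) => kah c (aff fun i => k (.inl i)) (k (.inr 0))
  | .inr (.inl 1) => Fh c (aff fun i => k (.inl i)) (k (.inr 0))
  | .inr (.inl 2) => Ah c (aff fun i => k (.inl i))
  | .inr (.inl 3) => Bh c (aff fun i => k (.inl i))
  | .inr (.inl 4) => qh c (aff fun i => k (.inl i))
      (xz c (fun i => k (.inl i)) (k (.inr 1))) (k (.inr (Fin.last (m + 1))))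
  | .inr (.inr i) => k (.inl i.1)

/-- The matrix of the directions at the roots `z a`, `a ≠ 0`. -/
noncomputable def Vm (c : Ix m → S) (k : Un m → S) : Matrix (Fin (m + 1)) (Fin (m + 1)) S :=
  fun a i => vh c (yh c (aff fun i => k (.inl i)) (k (.inr a.succ))) i

/-- The product of the quantities which must not vanish. -/
noncomputable def Pp (c : Ix m → S) (k : Un m → S) : S :=
  (Mx c (aff fun i => k (.inl i))).det *
  (∏ a : Fin (m + 2), ∏ b : Fin (m + 2), if a = b then 1 else k (.inr a) - k (.inr b)) *
  (∏ a : Fin (m + 2), (Nx c (yh c (aff fun i => k (.inl i)) (k (.inr a)))).det) *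
  (∏ a : Fin (m + 1), kah c (aff fun i => k (.inl i)) (k (.inr a.succ))) *
  (∏ a : Fin (m + 1), th c (aff fun i => k (.inl i)) (k (.inr a.succ))) *
  (∏ a : Fin (m + 2), (psP c (aff fun i => k (.inl i))).derivative.eval (k (.inr a))) *
  (∏ a : Fin (m + 2), ∏ b : Fin (m + 2), if a = b ∨ (a = 1 ∧ b = Fin.last (m + 1)) then 1 else
    qh c (aff fun i => k (.inl i)) (xz c (fun i => k (.inl i)) (k (.inr a))) (k (.inr b))) *
  (Vm c k).det

end config

end Pool.Agent.Helper24.H2
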